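import Mathlib

set_option autoImplicit false
open Set Filter Topology
open scoped RealInnerProductSpace

namespace Pool.Agent.Results.MP_d7bb9e_an.Counter

abbrev E (n : ℕ) := EuclideanSpace ℝ (Fin n)

/-- levels q at least the infimum of f above which all truncations are convex -/
def Levels {n : ℕ} (f : E n → ℝ) : Set ℝ :=
  {q | (⨅ x, (f x : EReal)) ≤ q ∧ ∀ r, q ≤ r → ConvexOn ℝ univ (fun x => max r (f x))}

/-- the Hessian as a bilinear form -/
noncomputable def hess {n : ℕ} (f : E n → ℝ) (x v w : E n) : ℝ := fderiv ℝ (fderiv ℝ f) x v w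

/-- points with positive definite Hessian -/
def HessPos {n : ℕ} (f : E n → ℝ) : Set (E n) := {x | ∀ v, v ≠ 0 → 0 < hess f x v v}

/-- critical points -/
def Crit {n : ℕ} (f : E n → ℝ) : Set (E n) := {x | gradient f x = 0}

/-- the hypotheses (H), with c the smallest convexity level -/
def Hyp {n : ℕ} (f : E n → ℝ) (c : ℝ) : Prop :=
  ContDiff ℝ 2 f ∧ (∀ x ∈ Crit f, ∀ v, (∀ w, hess f x v w = 0) → v = 0) ∧ ¬ ConvexOn ℝ univ f ∧
    (Levels f).Nonempty ∧ IsGLB (Levels f) c ∧ c ∈ range f ∧ (∀ x ∈ Crit f, f x ≠ c) ∧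
    {x | c < f x} ⊆ HessPos f

/-- the valence of the gradient -/
noncomputable def Val {n : ℕ} (f : E n → ℝ) : ℕ∞ := ⨆ y, (gradient f ⁻¹' {y}).encard

variable {n : ℕ}

noncomputable def F (e x : E n) : ℝ := (‖x‖ ^ 2) ^ 2 / 4 - ‖x‖ ^ 2 / 2 + 6 * ⟪e, x⟫

theorem F_grad (e x : E n) : HasGradientAt (F e) ((‖x‖ ^ 2 - 1) • x + (6 : ℝ) • e) x := by
  rw [hasGradientAt_iff_hasFDerivAt]
  have h := (hasStrictFDerivAt_norm_sq x).hasFDerivAt
  have := (((h.pow 2).mul_const (1 / 4)).sub (h.mul_const (1 / 2))).add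
    ((innerSL ℝ e).hasFDerivAt.const_mul 6)
  refine (this.congr_fderiv ?_).congr_of_eventuallyEq (Eventually.of_forall fun y => ?_)
  · ext v; simp [inner_add_left, inner_smul_left]; ring
  · simp [F]; ring

theorem F_fderiv (e : E n) :
    fderiv ℝ (F e) = fun x => innerSL ℝ ((‖x‖ ^ 2 - 1) • x + (6 : ℝ) • e) := by
  funext x
  rw [(hasGradientAt_iff_hasFDerivAt.mp (F_grad e x)).fderiv]
  rfl

theorem F_hess (e x v w : E n) :
    hess (F e) x v w = 2 * ⟪x, v⟫ * ⟪x, w⟫ + (‖x‖ ^ 2 - 1) * ⟪v, w⟫ := by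
  have h := (hasStrictFDerivAt_norm_sq x).hasFDerivAt
  have h1 := ((h.sub_const 1).smul (hasFDerivAt_id x)).add_const ((6 : ℝ) • e)
  have h2 := (innerSL ℝ (E := E n)).hasFDerivAt.comp x h1
  rw [hess, F_fderiv]
  erw [h2.fderiv]
  simp [inner_add_left, inner_smul_left]
  erw [innerSL_apply_apply, innerSL_apply_apply]
  ring

theorem F_crit (e : E n) (he : ‖e‖ = 1) : Crit (F e) = {(-2 : ℝ) • e} := by
  ext x
  simp only [Crit, mem_ofPred_eq, (F_grad e x).gradient, mem_singleton_iff]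
  constructor
  · intro h
    have h0 : ‖x‖ ^ 2 - 1 ≠ 0 := fun h0 => by
      rw [h0, zero_smul, zero_add] at h
      have := congrArg norm h
      simp [norm_smul, he] at this
    obtain ⟨s, rfl⟩ : ∃ s : ℝ, x = s • e := ⟨-6 / (‖x‖ ^ 2 - 1), by
      have := congrArg (fun y => (‖x‖ ^ 2 - 1)⁻¹ • y) (eq_neg_of_add_eq_zero_left h)
      simp only [smul_smul, inv_mul_cancel₀ h0, one_smul, ← neg_smul] at this
      rw [div_eq_inv_mul]; exact this⟩
    rw [norm_smul, he, mul_one, Real.norm_eq_abs, sq_abs, smul_smul, ← add_smul] at h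
    have := congrArg norm h
    rw [norm_smul, he, mul_one, norm_zero, norm_eq_zero] at this
    have h2 : (s + 2) * ((s - 1) ^ 2 + 2) = 0 := by linear_combination this
    rw [show s = -2 by linarith [(mul_eq_zero.mp h2).resolve_right (by positivity)]]
  · rintro rfl
    rw [norm_smul, he, smul_smul, ← add_smul]
    norm_num

theorem F_le (e : E n) (he : ‖e‖ = 1) (x : E n) (hx : ‖x‖ ≤ 1) : F e x ≤ 23 / 4 := by
  have h1 := real_inner_le_norm e x
  rw [he, one_mul] at h1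
  have h0 := norm_nonneg x
  unfold F
  have : 0 ≤ (1 - ‖x‖) * (23 - ‖x‖ + ‖x‖ ^ 2 + ‖x‖ ^ 3) := mul_nonneg (by linarith) (by nlinarith [pow_nonneg h0 3])
  nlinarith

theorem F_conv (e : E n) (he : ‖e‖ = 1) (r : ℝ) (hr : 23 / 4 ≤ r) :
    ConvexOn ℝ univ (fun x => max r (F e x)) := by
  have h1 : ConvexOn ℝ univ (fun x : E n => max 0 (‖x‖ ^ 2 - 1)) :=
    (convexOn_const 0 convex_univ).sup
      ((convexOn_univ_norm.pow (fun x _ => norm_nonneg x) 2).sub (concaveOn_const 1 convex_univ))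
  have h2 := (h1.pow (fun x _ => le_max_left _ _) 2).smul (show (0 : ℝ) ≤ 1 / 4 by norm_num)
  have h3 : ConvexOn ℝ univ (fun x : E n => 6 * ⟪e, x⟫ - 1 / 4) :=
    (((6 : ℝ) • innerSL ℝ e).toLinearMap.convexOn convex_univ).sub (concaveOn_const _ convex_univ)
  refine ((convexOn_const r convex_univ).sup (h2.add h3)).congr fun x _ => Eq.symm ?_
  show max r (F e x) = max r (1 / 4 * (max 0 (‖x‖ ^ 2 - 1)) ^ 2 + (6 * ⟪e, x⟫ - 1 / 4))
  rcases le_total ‖x‖ 1 with h | h
  · have h4 := real_inner_le_norm e x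
    rw [he, one_mul] at h4
    rw [max_eq_left ((F_le e he x h).trans hr), max_eq_left (a := 0) (by nlinarith [norm_nonneg x]),
      max_eq_left (by linarith)]
  · rw [max_eq_right (a := 0) (by nlinarith), F]
    ring_nf

theorem F_val (e u : E n) (he : ‖e‖ = 1) (hu : ‖u‖ = 1) (heu : ⟪e, u⟫ = 0) (s t : ℝ) :
    F e (s • e + t • u) = (s ^ 2 + t ^ 2) ^ 2 / 4 - (s ^ 2 + t ^ 2) / 2 + 6 * s := by
  have : ‖s • e + t • u‖ ^ 2 = s ^ 2 + t ^ 2 := by
    rw [norm_add_sq_real]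
    simp [inner_smul_left, inner_smul_right, heu, norm_smul, he, hu]
  rw [F, this]
  simp [inner_add_right, inner_smul_right, heu, he]

theorem F_nconv (e u : E n) (he : ‖e‖ = 1) (hu : ‖u‖ = 1) (heu : ⟪e, u⟫ = 0) (r : ℝ)
    (hr : r < 23 / 4) : ¬ ConvexOn ℝ univ (fun x => max r (F e x)) := by
  intro h
  obtain ⟨s, h0, h1, h2⟩ : ∃ s : ℝ, 0 ≤ s ∧ s < 1 ∧ r < 6 * s - 1 / 4 :=
    ⟨max 0 ((r + 1 / 4) / 12 + 1 / 2), le_max_left _ _, max_lt one_pos (by linarith),
      by linarith [le_max_right 0 ((r + 1 / 4) / 12 + 1 / 2)]⟩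
  have h3 : 0 < 1 - s ^ 2 := by nlinarith
  have h4 := Real.sq_sqrt h3.le
  have := h.2 (mem_univ (s • e + √(1 - s ^ 2) • u)) (mem_univ (s • e + (-√(1 - s ^ 2)) • u))
    (show (0 : ℝ) ≤ 1 / 2 by norm_num) (show (0 : ℝ) ≤ 1 / 2 by norm_num) (by norm_num)
  rw [show (1 / 2 : ℝ) • (s • e + √(1 - s ^ 2) • u) + (1 / 2 : ℝ) • (s • e + (-√(1 - s ^ 2)) • u) =
    s • e + (0 : ℝ) • u by module] at this
  simp only [F_val e u he hu heu, neg_sq, h4, smul_eq_mul] at this
  rw [max_eq_right (a := r) (b := (s ^ 2 + (1 - s ^ 2)) ^ 2 / 4 - _ + _) (by ring_nf; linarith)] at this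
  have := (le_max_right _ _).trans this
  nlinarith [mul_pos h3 h3]

theorem result (n : ℕ) (hn : 2 ≤ n) : ∃ (f : E n → ℝ) (c : ℝ), Hyp f c ∧
    (Crit f).encard = 1 ∧ Val f = ⊤ := by
  set e : E n := EuclideanSpace.single ⟨0, by omega⟩ 1
  set u : E n := EuclideanSpace.single ⟨1, by omega⟩ 1
  have he : ‖e‖ = 1 := by simp [e]
  have hu : ‖u‖ = 1 := by simp [u]
  have heu : ⟪e, u⟫ = 0 := by simp [e, u, EuclideanSpace.inner_single_left]
  have hFe : F e e = 23 / 4 := by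
    have := F_val e u he hu heu 1 0
    norm_num at this ⊢
    exact this
  have hpos : ∀ x : E n, 1 < ‖x‖ → x ∈ HessPos (F e) := by
    intro x hx v hv
    rw [F_hess, real_inner_self_eq_norm_sq]
    have := norm_pos_iff.mpr hv
    have : 0 < (‖x‖ ^ 2 - 1) * ‖v‖ ^ 2 := mul_pos (by nlinarith) (by positivity)
    nlinarith [sq_nonneg ⟪x, v⟫]
  have hmem : (23 / 4 : ℝ) ∈ Levels (F e) := ⟨iInf_le_of_le e (by rw [hFe]), F_conv e he⟩
  refine ⟨F e, 23 / 4, ⟨?_, ?_, fun h => ?_, ⟨_, hmem⟩, IsLeast.isGLB ⟨hmem, fun q hq => ?_⟩, ⟨e, hFe⟩, ?_,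
    fun x hx => hpos x (lt_of_not_ge fun h => (F_le e he x h).not_gt hx)⟩, ?_, ?_⟩
  · have h := contDiff_norm_sq ℝ (E := E n) (n := 2)
    exact (((h.pow 2).div_const 4).sub (h.div_const 2)).add
      (contDiff_const.mul (innerSL ℝ e).contDiff)
  · intro x hx v hv
    rw [F_crit e he, mem_singleton_iff] at hx
    by_contra h
    exact (hpos x (by rw [hx, norm_smul, he]; norm_num) v h).ne' (hv v)
  · exact F_nconv e u he hu heu 0 (by norm_num) ((convexOn_const 0 convex_univ).sup h)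
  · exact le_of_not_gt fun h => F_nconv e u he hu heu q h (hq.2 q le_rfl)
  · intro x hx
    rw [F_crit e he, mem_singleton_iff] at hx
    have := F_val e u he hu heu (-2) 0
    rw [zero_smul, add_zero] at this
    rw [hx, this]; norm_num
  · rw [F_crit e he, encard_singleton]
  · rw [Val, eq_top_iff]
    refine le_iSup_of_le ((6 : ℝ) • e) (le_of_eq (Set.Infinite.encard_eq ?_).symm)
    refine Set.infinite_of_injOn_mapsTo (f := fun s : ℝ => s • e + √(1 - s ^ 2) • u) (s := Icc 0 1)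
      (fun a _ b _ h => ?_) (fun s hs => ?_) (Icc_infinite one_pos)
    · have := congrArg (fun y => ⟪e, y⟫) h
      simpa [inner_add_right, inner_smul_right, heu, he] using this
    · have : ‖s • e + √(1 - s ^ 2) • u‖ ^ 2 = 1 := by
        rw [norm_add_sq_real]
        have : 0 ≤ 1 - s ^ 2 := by nlinarith [hs.1, hs.2]
        simp [inner_smul_left, inner_smul_right, heu, norm_smul, he, hu, Real.sq_sqrt this]
      simp [(F_grad e _).gradient, this]

end Pool.Agent.Results.MP_d7bb9e_an.Counter
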